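import Pool.Agent.Helper947_Fin.Assemble

set_option autoImplicit false

/-!
Rank three with prescribed bounds for the dimensions of the endomorphism algebras.
-/

namespace Pool.Agent.Helper947_Three

open Pool.Agent.Helper947_Fin

/-- the bilinear bound, for bounds `a`, `b`, `c` of `E (-g i) (g i)` -/
def iniM (a b c : ℕ) (x y : Pt) : Option ℕ :=
  some ((1 - x.a) * (a * (y.a - 1) + (a + b - 1) * (1 - y.b) + (a + c - 1) * (1 - y.c)) +
    (x.b - 1) * ((a + b - 1) * (y.a - 1) + b * (1 - y.b) + (b + c - 1) * (1 - y.c)) +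
    (x.c - 1) * ((a + c - 1) * (y.a - 1) + (b + c - 1) * (1 - y.b) + c * (1 - y.c)))

/-- the certificate is correct -/
abbrev Ok (a b c : ℕ) (l : List Step) (tr : Tree) : Prop :=
  checkAll (iniM a b c) l tr ⟨2, 1, 1⟩ ⟨1, 2, 1⟩ ⟨1, 1, 2⟩ = true

theorem good_of_ok {L : Type*} [AddCommGroup L] {E : L → L → ℕ} (hE : Ax E) (g : Fin 3 → L)
    (hP : ∀ i y, E (g i) y = 0) (hN : ∀ x i, E x (-g i) = 0) (a b c : ℕ) (ha : 1 ≤ a)
    (hb : 1 ≤ b) (hc : 1 ≤ c) (h0 : E (-g 0) (g 0) ≤ a) (h1 : E (-g 1) (g 1) ≤ b)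
    (h2 : E (-g 2) (g 2) ≤ c) {l : List Step} {tr : Tree} (hok : Ok a b c l tr) :
    Good E (g 0) (-g 1) (-g 2) := by
  refine checkAll_sound (g 0) (g 1) (g 2) hE (ini := iniM a b c) ?_ l tr hok
  intro x y n h
  have h' := le_bilD hE g hP hN (fun i j =>
    (![![a, a + b - 1, a + c - 1], ![a + b - 1, b, b + c - 1], ![a + c - 1, b + c - 1, c]] :
      Fin 3 → Fin 3 → ℕ) i j) (fun i j => by
    have o01 := hE.offdiag (g 0) (g 1) (hP _ _) a b h0 h1
    have o02 := hE.offdiag (g 0) (g 2) (hP _ _) a c h0 h2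
    have o10 := hE.offdiag (g 1) (g 0) (hP _ _) b a h1 h0
    have o12 := hE.offdiag (g 1) (g 2) (hP _ _) b c h1 h2
    have o20 := hE.offdiag (g 2) (g 0) (hP _ _) c a h2 h0
    have o21 := hE.offdiag (g 2) (g 1) (hP _ _) c b h2 h1
    fin_cases i <;> fin_cases j <;>
      simp only [Fin.zero_eta, Fin.mk_one, Fin.reduceFinMk, Matrix.cons_val_zero,
        Matrix.cons_val_one, Matrix.cons_val] <;> omega) x y
  refine h'.trans ?_
  unfold iniM at h
  cases h
  simp only [bilD, Pt.pos, Pt.neg, Matrix.cons_val_zero, Matrix.cons_val_one, Matrix.cons_val]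
  apply le_of_eq
  ring

end Pool.Agent.Helper947_Three
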