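import Pool.Agent.Helper947_Fin.UseQ
import Pool.Agent.Helper947_Three.Ini

set_option autoImplicit false

/-!
Three indecomposable projectives with small endomorphism algebras.
-/

namespace Pool.Agent.Helper947_Three

open Pool.Agent.Helper391_TT Pool.Agent.Helper947_Fin

universe u

/-- there is a certificate -/
def HasOk (a b c : ℕ) : Prop := ∃ (l : List Step) (tr : Tree), Ok a b c l tr

/-- the certificates used -/
structure All : Prop where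
  c711 : HasOk 7 1 1
  c171 : HasOk 1 7 1
  c421 : HasOk 4 2 1
  c241 : HasOk 2 4 1
  c142 : HasOk 1 4 2
  c322 : HasOk 3 2 2
  c232 : HasOk 2 3 2

section abstract

variable {L : Type*} [AddCommGroup L] {E : L → L → ℕ}

theorem good_of_hasOk (hE : Ax E) (x y z : L) (hx : ∀ w, E x w = 0) (hy : ∀ w, E y w = 0)
    (hz : ∀ w, E z w = 0) (hx' : ∀ w, E w (-x) = 0) (hy' : ∀ w, E w (-y) = 0)
    (hz' : ∀ w, E w (-z) = 0) (a b c : ℕ) (ha : 1 ≤ a) (hb : 1 ≤ b) (hc : 1 ≤ c)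
    (h0 : E (-x) x ≤ a) (h1 : E (-y) y ≤ b) (h2 : E (-z) z ≤ c) (hok : HasOk a b c) :
    Good E x (-y) (-z) := by
  obtain ⟨l, tr, hok⟩ := hok
  refine good_of_ok hE ![x, y, z] (fun i w => ?_) (fun w i => ?_) a b c ha hb hc h0 h1 h2 hok
  · fin_cases i
    · exact hx w
    · exact hy w
    · exact hz w
  · fin_cases i
    · exact hx' w
    · exact hy' w
    · exact hz' w

/-- the triples of bounds, the first entry belonging to the positive generator, that are covered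
by the certificates -/
def Small (m0 m1 m2 : ℕ) : Prop :=
  (m0 ≤ 7 ∧ m1 ≤ 1 ∧ m2 ≤ 1) ∨ (m0 ≤ 1 ∧ m1 ≤ 7 ∧ m2 ≤ 1) ∨ (m0 ≤ 1 ∧ m2 ≤ 7 ∧ m1 ≤ 1) ∨
    (m0 ≤ 4 ∧ m1 ≤ 2 ∧ m2 ≤ 1) ∨ (m0 ≤ 4 ∧ m2 ≤ 2 ∧ m1 ≤ 1) ∨ (m0 ≤ 2 ∧ m1 ≤ 4 ∧ m2 ≤ 1) ∨
    (m0 ≤ 2 ∧ m2 ≤ 4 ∧ m1 ≤ 1) ∨ (m0 ≤ 1 ∧ m1 ≤ 4 ∧ m2 ≤ 2) ∨ (m0 ≤ 1 ∧ m2 ≤ 4 ∧ m1 ≤ 2) ∨
    (m0 ≤ 3 ∧ m1 ≤ 2 ∧ m2 ≤ 2) ∨ (m0 ≤ 2 ∧ m1 ≤ 3 ∧ m2 ≤ 2) ∨ (m0 ≤ 2 ∧ m2 ≤ 3 ∧ m1 ≤ 2)

theorem good_all (hE : Ax E) (H : All) (x y z : L) (hx : ∀ w, E x w = 0) (hy : ∀ w, E y w = 0)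
    (hz : ∀ w, E z w = 0) (hx' : ∀ w, E w (-x) = 0) (hy' : ∀ w, E w (-y) = 0)
    (hz' : ∀ w, E w (-z) = 0) (m0 m1 m2 : ℕ) (h0 : E (-x) x ≤ m0) (h1 : E (-y) y ≤ m1)
    (h2 : E (-z) z ≤ m2) (key : Small m0 m1 m2) : Good E x (-y) (-z) := by
  have A : ∀ a b c : ℕ, 1 ≤ a → 1 ≤ b → 1 ≤ c → HasOk a b c → m0 ≤ a ∧ m1 ≤ b ∧ m2 ≤ c →
      Good E x (-y) (-z) := fun a b c ha hb hc hok h =>
    good_of_hasOk hE x y z hx hy hz hx' hy' hz' a b c ha hb hc (h0.trans h.1) (h1.trans h.2.1)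
      (h2.trans h.2.2) hok
  have A' : ∀ a b c : ℕ, 1 ≤ a → 1 ≤ b → 1 ≤ c → HasOk a b c → m0 ≤ a ∧ m2 ≤ b ∧ m1 ≤ c →
      Good E x (-y) (-z) := fun a b c ha hb hc hok h =>
    (good_of_hasOk hE x z y hx hz hy hx' hz' hy' a b c ha hb hc (h0.trans h.1) (h2.trans h.2.1)
      (h1.trans h.2.2) hok).swap
  rcases key with h | h | h | h | h | h | h | h | h | h | h | h
  · exact A 7 1 1 (by omega) (by omega) (by omega) H.c711 h
  · exact A 1 7 1 (by omega) (by omega) (by omega) H.c171 h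
  · exact A' 1 7 1 (by omega) (by omega) (by omega) H.c171 h
  · exact A 4 2 1 (by omega) (by omega) (by omega) H.c421 h
  · exact A' 4 2 1 (by omega) (by omega) (by omega) H.c421 h
  · exact A 2 4 1 (by omega) (by omega) (by omega) H.c241 h
  · exact A' 2 4 1 (by omega) (by omega) (by omega) H.c241 h
  · exact A 1 4 2 (by omega) (by omega) (by omega) H.c142 h
  · exact A' 1 4 2 (by omega) (by omega) (by omega) H.c142 h
  · exact A 3 2 2 (by omega) (by omega) (by omega) H.c322 h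
  · exact A 2 3 2 (by omega) (by omega) (by omega) H.c232 h
  · exact A' 2 3 2 (by omega) (by omega) (by omega) H.c232 h

end abstract

variable {k A : Type u} [Field k] [Ring A] [Algebra k A] {ι : Type} [Fintype ι] [DecidableEq ι]
  (B : ProjBasis k A ι) (F : (ι → ℤ) → Obj k A) (hF : ∀ x, Rigid (F x) ∧ B.Cls (F x) x)

include hF in
theorem finite_of_three [Module.Finite k A] (H : All) (i j l : ι) (hall : ∀ a, a = i ∨ a = j ∨ a = l)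
    (hd : (dd (B.P i) (B.P i) ≤ 7 ∧ dd (B.P j) (B.P j) ≤ 1 ∧ dd (B.P l) (B.P l) ≤ 1) ∨
      (dd (B.P i) (B.P i) ≤ 4 ∧ dd (B.P j) (B.P j) ≤ 2 ∧ dd (B.P l) (B.P l) ≤ 1) ∨
      (dd (B.P i) (B.P i) ≤ 3 ∧ dd (B.P j) (B.P j) ≤ 2 ∧ dd (B.P l) (B.P l) ≤ 2)) :
    TauTiltingFinite k A := by
  have hE := ax B F hF
  have G1 : ∀ a b c : ι, Small (dd (B.P a) (B.P a)) (dd (B.P b) (B.P b)) (dd (B.P c) (B.P c)) →
      Good (EE F) (bv a) (-bv b) (-bv c) := by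
    intro a b c h
    exact good_all hE H (bv a) (bv b) (bv c) (fun y => EE_pos B F hF _ y)
      (fun y => EE_pos B F hF _ y) (fun y => EE_pos B F hF _ y) (fun x => EE_neg B F hF x _)
      (fun x => EE_neg B F hF x _) (fun x => EE_neg B F hF x _) _ _ _ (EE_le B F hF a a)
      (EE_le B F hF b b) (EE_le B F hF c c) h
  have G2 : ∀ a b c : ι, Small (dd (B.P a) (B.P a)) (dd (B.P b) (B.P b)) (dd (B.P c) (B.P c)) →
      Good (EE F) (-bv a) (bv b) (bv c) := by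
    intro a b c h
    have g := (good_all hE.dual H (bv a) (bv b) (bv c) (fun y => EE_neg B F hF _ _)
      (fun y => EE_neg B F hF _ _) (fun y => EE_neg B F hF _ _)
      (fun x => by rw [neg_neg]; exact EE_pos B F hF _ _)
      (fun x => by rw [neg_neg]; exact EE_pos B F hF _ _)
      (fun x => by rw [neg_neg]; exact EE_pos B F hF _ _) _ _ _
      (by rw [neg_neg]; exact EE_le B F hF a a) (by rw [neg_neg]; exact EE_le B F hF b b)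
      (by rw [neg_neg]; exact EE_le B F hF c c) h).dual
    rwa [neg_neg, neg_neg] at g
  have k1 : Small (dd (B.P i) (B.P i)) (dd (B.P j) (B.P j)) (dd (B.P l) (B.P l)) := by
    rcases hd with h | h | h
    · exact Or.inl ⟨h.1, h.2.1, h.2.2⟩
    · exact Or.inr (Or.inr (Or.inr (Or.inl ⟨h.1, h.2.1, h.2.2⟩)))
    · exact Or.inr (Or.inr (Or.inr (Or.inr (Or.inr (Or.inr (Or.inr (Or.inr (Or.inr (Or.inl ⟨h.1, h.2.1, h.2.2⟩)))))))))
  have k2 : Small (dd (B.P j) (B.P j)) (dd (B.P i) (B.P i)) (dd (B.P l) (B.P l)) := by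
    rcases hd with h | h | h
    · exact Or.inr (Or.inl ⟨h.2.1, h.1, h.2.2⟩)
    · exact Or.inr (Or.inr (Or.inr (Or.inr (Or.inr (Or.inl ⟨h.2.1, h.1, h.2.2⟩)))))
    · exact Or.inr (Or.inr (Or.inr (Or.inr (Or.inr (Or.inr (Or.inr (Or.inr (Or.inr (Or.inr (Or.inl ⟨h.2.1, h.1, h.2.2⟩))))))))))
  have k3 : Small (dd (B.P l) (B.P l)) (dd (B.P i) (B.P i)) (dd (B.P j) (B.P j)) := by
    rcases hd with h | h | h
    · exact Or.inr (Or.inl ⟨h.2.2, h.1, h.2.1⟩)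
    · exact Or.inr (Or.inr (Or.inr (Or.inr (Or.inr (Or.inr (Or.inr (Or.inl ⟨h.2.2, h.1, h.2.1⟩)))))))
    · exact Or.inr (Or.inr (Or.inr (Or.inr (Or.inr (Or.inr (Or.inr (Or.inr (Or.inr (Or.inr (Or.inl ⟨h.2.2, h.1, h.2.1⟩))))))))))
  exact finite_of_good6 B F hF i j l hall (G1 i j l k1) (G1 j i l k2) (G1 l i j k3) (G2 i j l k1)
    (G2 j i l k2) (G2 l i j k3)

end Pool.Agent.Helper947_Three
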